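import Pool.Agent.Lib.MP_c7af3c_ag.T2C.H12.Nopl224
import Pool.Agent.Lib.MP_c7af3c_ag.T2C.H49.NoplAll

/-!
# MP_c7af3c_ag, project T2C, row NOPL (helper49, helper12)
-/

set_option autoImplicit false

namespace Pool.Agent.T2C.H12

theorem nopl224St : H49.Nopl224Statement := by
  rintro Ω _ _ k Γ _ S n c d D x j0 hn hs h2 hc ⟨m0, hm0⟩ hS t P hull
  exact nopl_of_four hn hs h2 hc hm0 hS hull

/-- Row NOPL. -/
theorem nopl : NoplStatement := H49.nopl_of nopl224St

end Pool.Agent.T2C.H12
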