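import Pool.Agent.Lib.MP_c7af3c_ag.T2C.IfaceB

/-!
# MP_c7af3c_ag, project T2C, row NORM1: the smooth conic, every degree `r + 2` (helper12)
`rho f = f(s^2, s, 1)` is the restriction to the conic; a matrix which fixes the point and the
conic acts on `rho f` as `(u s + m) d/ds + w`.
-/

set_option autoImplicit false

namespace Pool.Agent.T2C.H12.N1

open MvPolynomial Pool.Agent.Gen Pool.Agent.Sharp Pool.Agent.Edge
open Pool.Agent.Sharp.H75 (dco DG af)
open Pool.Agent.Edge.H65 (ssub ssub_X ssub_C ssub_hom finrank_hom3 finite_hom3)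
open Pool.Agent.T2 (S3 mulS mem_mulS)

variable {K : Type} [Field K]

/-! ### the restriction to the conic -/

variable (K) in
/-- the restriction to the conic -/
noncomputable def rho : MvPolynomial (Fin 3) K →ₐ[K] Polynomial K :=
  aeval ![Polynomial.X ^ 2, Polynomial.X, 1]

@[simp] theorem rho_X0 : rho K (X 0) = Polynomial.X ^ 2 := by
  unfold rho; rw [aeval_X]; rfl

@[simp] theorem rho_X1 : rho K (X 1) = Polynomial.X := by
  unfold rho; rw [aeval_X]; rfl

@[simp] theorem rho_X2 : rho K (X 2) = 1 := by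
  unfold rho; rw [aeval_X]; rfl

@[simp] theorem rho_C (a : K) : rho K (C a) = Polynomial.C a := by
  unfold rho; rw [aeval_C]; rfl

theorem derivative_rho (f : MvPolynomial (Fin 3) K) :
    Polynomial.derivative (rho K f) =
      rho K (pderiv 0 f) * (2 * Polynomial.X) + rho K (pderiv 1 f) := by
  induction f using MvPolynomial.induction_on with
  | C a => simp
  | add p q hp hq => rw [map_add, map_add, hp, hq, map_add, map_add, map_add, map_add]; ring
  | mul_X p i hp =>
    rw [map_mul, Polynomial.derivative_mul, hp]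
    simp only [pderiv_mul, map_add, map_mul]
    fin_cases i
    · simp [pderiv_X_of_ne, pderiv_X_self]
      ring
    · simp [pderiv_X_of_ne, pderiv_X_self]
      ring
    · simp [pderiv_X_of_ne, pderiv_X_self]

variable (K) in
/-- the smooth conic -/
noncomputable def qc : MvPolynomial (Fin 3) K := X 0 * X 2 - X 1 ^ 2

theorem qc_eq : MvPolynomial.map (Int.castRingHom K)
    (X 0 * X 2 - X 1 ^ 2 : MvPolynomial (Fin 3) ℤ) = qc K := by
  simp [qc]

theorem rho_qc : rho K (qc K) = 0 := by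
  simp [qc]

theorem qc_ne : qc K ≠ 0 := by
  intro h
  have h1 := congrArg (eval ![1, 0, 1]) h
  simp [qc] at h1

theorem qc_hom : (qc K).IsHomogeneous 2 := by
  unfold qc
  exact ((isHomogeneous_X K 0).mul (isHomogeneous_X K 2)).sub ((isHomogeneous_X K 1).pow 2)

theorem rho_mulS {r : ℕ} {g : MvPolynomial (Fin 3) K} (h : g ∈ mulS (qc K) r) : rho K g = 0 := by
  obtain ⟨b, -, rfl⟩ := mem_mulS.1 h
  rw [map_mul, rho_qc, zero_mul]

theorem linIndep_pow (N : ℕ) : LinearIndependent K (fun i : Fin N => (Polynomial.X ^ (i : ℕ) :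
    Polynomial K)) := by
  rw [Fintype.linearIndependent_iff]
  intro a ha i
  have h1 := congrArg (fun p => Polynomial.coeff p (i : ℕ)) ha
  simp only [Polynomial.finsetSum_coeff, Polynomial.coeff_smul, Polynomial.coeff_X_pow,
    Polynomial.coeff_zero, smul_eq_mul, mul_ite, mul_one, mul_zero] at h1
  rw [Finset.sum_eq_single i] at h1
  · simpa using h1
  · intro j _ hj
    rw [if_neg]
    intro h
    exact hj (Fin.ext h.symm)
  · intro h
    exact absurd (Finset.mem_univ _) h

theorem exists_pow (r i : ℕ) (hi : i ≤ 2 * (r + 2)) :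
    ∃ a : MvPolynomial (Fin 3) K, a.IsHomogeneous (r + 2) ∧ rho K a = Polynomial.X ^ i := by
  rcases Nat.even_or_odd' i with ⟨e, he | he⟩
  · refine ⟨X 0 ^ e * X 2 ^ (r + 2 - e), ?_, ?_⟩
    · have := ((isHomogeneous_X K (0 : Fin 3)).pow e).mul
        ((isHomogeneous_X K (2 : Fin 3)).pow (r + 2 - e))
      rwa [show 1 * e + 1 * (r + 2 - e) = r + 2 by omega] at this
    · rw [map_mul, map_pow, map_pow, rho_X0, rho_X2, one_pow, mul_one, he, pow_mul]
  · refine ⟨X 0 ^ e * X 1 * X 2 ^ (r + 1 - e), ?_, ?_⟩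
    · have := (((isHomogeneous_X K (0 : Fin 3)).pow e).mul
        (isHomogeneous_X K (1 : Fin 3))).mul ((isHomogeneous_X K (2 : Fin 3)).pow (r + 1 - e))
      rwa [show 1 * e + 1 + 1 * (r + 1 - e) = r + 2 by omega] at this
    · rw [map_mul, map_mul, map_pow, map_pow, rho_X0, rho_X1, rho_X2, one_pow, mul_one, he,
        ← pow_mul, ← pow_succ]

theorem mem_of_rho {r : ℕ} {g : MvPolynomial (Fin 3) K} (hg : g.IsHomogeneous (r + 2))
    (h : rho K g = 0) : g ∈ mulS (qc K) r := by
  have i1 : Module.Finite K (S3 K (r + 2)) := finite_hom3 K (r + 2)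
  have i2 : Module.Finite K (S3 K r) := finite_hom3 K r
  -- the restriction on the forms of degree `r + 2`
  let φ : S3 K (r + 2) →ₗ[K] Polynomial K := (rho K).toLinearMap.comp (S3 K (r + 2)).subtype
  have hle : mulS (qc K) r ≤ S3 K (r + 2) := by
    intro a ha
    obtain ⟨b, hb, rfl⟩ := mem_mulS.1 ha
    rw [add_comm r 2]
    exact qc_hom.mul hb
  have hker : Submodule.comap (S3 K (r + 2)).subtype (mulS (qc K) r) ≤ LinearMap.ker φ := by
    intro a ha
    rw [LinearMap.mem_ker]
    exact rho_mulS ha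
  have hd : Module.finrank K (Submodule.comap (S3 K (r + 2)).subtype (mulS (qc K) r)) =
      (r + 2).choose 2 := by
    rw [(Submodule.comapSubtypeEquivOfLe hle).finrank_eq]
    unfold mulS
    have hinj : Function.Injective (LinearMap.mulLeft K (qc K)) :=
      fun x y h => mul_left_cancel₀ qc_ne h
    rw [(LinearEquiv.finrank_eq (Submodule.equivMapOfInjective _ hinj (S3 K r))).symm,
      finrank_hom3]
  have hran : 2 * r + 5 ≤ Module.finrank K (LinearMap.range φ) := by
    have h1 : Submodule.span K (Set.range fun i : Fin (2 * r + 5) => (Polynomial.X ^ (i : ℕ) :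
        Polynomial K)) ≤ LinearMap.range φ := by
      rw [Submodule.span_le]
      rintro _ ⟨i, rfl⟩
      obtain ⟨a, ha, ha'⟩ := exists_pow (K := K) r (i : ℕ) (by omega)
      exact LinearMap.mem_range.2 ⟨⟨a, ha⟩, ha'⟩
    have h2 := Submodule.finrank_mono h1
    rwa [finrank_span_eq_card (linIndep_pow _), Fintype.card_fin] at h2
  have hrn := LinearMap.finrank_range_add_finrank_ker φ
  rw [finrank_hom3] at hrn
  have h28 : (r + 2 + 2).choose 2 = (r + 2).choose 2 + (2 * r + 5) := by
    have e1 : (r + 4).choose 2 = (r + 3).choose 1 + (r + 3).choose 2 := Nat.choose_succ_succ _ _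
    have e2 : (r + 3).choose 2 = (r + 2).choose 1 + (r + 2).choose 2 := Nat.choose_succ_succ _ _
    rw [Nat.choose_one_right] at e1 e2
    change (r + 4).choose 2 = _
    omega
  have heq : Submodule.comap (S3 K (r + 2)).subtype (mulS (qc K) r) = LinearMap.ker φ :=
    Submodule.eq_of_le_of_finrank_le hker (by omega)
  have hmem : (⟨g, hg⟩ : S3 K (r + 2)) ∈ LinearMap.ker φ := by
    rw [LinearMap.mem_ker]
    exact h
  rw [← heq] at hmem
  exact hmem

/-! ### the matrices which fix the point and the conic -/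

/-- the entries -/
theorem entries [CharZero K] {L : Fin 3 → Fin 3 → K} {c c' : K}
    (hy : ∀ j, ∑ i, L j i * (![1, 0, 0] : Fin 3 → K) i = c' * (![1, 0, 0] : Fin 3 → K) j)
    (hq : af L (qc K) = C c * qc K) :
    L 1 0 = 0 ∧ L 2 0 = 0 ∧ L 0 2 = 0 ∧ L 2 1 = 0 ∧ L 0 1 = 2 * L 1 2 ∧
      L 2 2 = 2 * L 1 1 - L 0 0 := by
  have y1 := hy 1
  have y2 := hy 2
  simp [Fin.sum_univ_three] at y1 y2
  have p0 : pderiv 0 (qc K) = X 2 := by
    simp [qc, pderiv_X_of_ne]
  have p1 : pderiv 1 (qc K) = - (2 * X 1) := by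
    simp [qc, pderiv_X_of_ne]
  have p2 : pderiv 2 (qc K) = X 0 := by
    simp [qc, pderiv_X_of_ne]
  have key : ∀ z : Fin 3 → K, (∑ q, L 0 q * z q) * z 2 + (∑ q, L 2 q * z q) * z 0 -
      2 * z 1 * (∑ q, L 1 q * z q) = c * (z 0 * z 2 - z 1 ^ 2) := by
    intro z
    have h := congrArg (eval z) hq
    unfold af Pool.Agent.Sharp.H75.lf at h
    rw [Fin.sum_univ_three, p0, p1, p2] at h
    simp only [map_add, map_mul, map_neg, map_sum, eval_C, eval_X, map_ofNat] at h
    have h2 : eval z (qc K) = z 0 * z 2 - z 1 ^ 2 := by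
      simp [qc]
    rw [h2] at h
    linear_combination h
  have e1 := key ![0, 0, 1]
  have e2 := key ![0, 1, 0]
  have e3 := key ![1, 0, 1]
  have e4 := key ![0, 1, 1]
  have e5 := key ![1, 1, 0]
  simp [Fin.sum_univ_three] at e1 e2 e3 e4 e5
  refine ⟨y1, y2, e1, ?_, ?_, ?_⟩
  · linear_combination e5 - y2 + 2 * y1 + e2
  · linear_combination e4 - e1 + e2
  · linear_combination e3 - e1 - y2 - e2

theorem rho_lf (a : Fin 3 → K) : rho K (Pool.Agent.Sharp.H75.lf (n := 2) a) =
    Polynomial.C (a 0) * Polynomial.X ^ 2 + Polynomial.C (a 1) * Polynomial.X +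
      Polynomial.C (a 2) := by
  change rho K (∑ q : Fin 3, C (a q) * X q) = _
  rw [Fin.sum_univ_three, map_add, map_add, map_mul, map_mul, map_mul, rho_C, rho_C, rho_C,
    rho_X0, rho_X1, rho_X2, mul_one]

/-- the action on the restriction to the conic -/
theorem act [CharZero K] {L : Fin 3 → Fin 3 → K} {f : MvPolynomial (Fin 3) K} {r : ℕ}
    (hf : f.IsHomogeneous (r + 2)) (h10 : L 1 0 = 0) (h20 : L 2 0 = 0) (h02 : L 0 2 = 0)
    (h21 : L 2 1 = 0) (h01 : L 0 1 = 2 * L 1 2) (h22 : L 2 2 = 2 * L 1 1 - L 0 0) :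
    rho K (af L f) = (Polynomial.C (L 0 0 - L 1 1) * Polynomial.X + Polynomial.C (L 1 2)) *
      Polynomial.derivative (rho K f) + Polynomial.C (((r + 2 : ℕ) : K) * L 2 2) * rho K f := by
  have he : ∑ i, X i * pderiv i f = (r + 2) • f := hf.sum_X_mul_pderiv
  have he2 := congrArg (rho K) he
  rw [Fin.sum_univ_three, map_add, map_add, map_mul, map_mul, map_mul, rho_X0, rho_X1, rho_X2,
    one_mul, map_nsmul, nsmul_eq_mul] at he2
  have h0 : rho K (af L f) = ∑ p : Fin 3, rho K (Pool.Agent.Sharp.H75.lf (n := 2) (L p)) *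
      rho K (pderiv p f) := by
    unfold af
    rw [map_sum]
    exact Finset.sum_congr rfl fun p _ => map_mul _ _ _
  rw [h0, Fin.sum_univ_three, derivative_rho, rho_lf, rho_lf, rho_lf, h10, h20, h02, h21, h01, h22]
  simp only [map_mul, map_zero, map_sub, map_ofNat, map_natCast]
  linear_combination (Polynomial.C (L 1 1) * 2 - Polynomial.C (L 0 0)) * he2

/-- the restriction of `f` to the conic is constant -/
theorem rho_const [CharZero K] {f : MvPolynomial (Fin 3) K} {r : ℕ}
    (hf : f.IsHomogeneous (r + 2))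
    {M : Submodule K (Fin 3 → Fin 3 → K)} (hM : StbE r (qc K) f ![1, 0, 0] M) :
    ∃ c : K, rho K f = Polynomial.C c := by
  -- a matrix in `M` with `L 0 0 = L 1 1`
  have h1 : ∃ L ∈ M, L ≠ 0 ∧ L 0 0 = L 1 1 := by
    let u : M →ₗ[K] K :=
      { toFun := fun L => L.1 0 0 - L.1 1 1
        map_add' := fun a b => by
          simp only [Submodule.coe_add, Pi.add_apply]
          ring
        map_smul' := fun c a => by
          simp only [Submodule.coe_smul, Pi.smul_apply, smul_eq_mul, RingHom.id_apply]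
          ring }
    have h2 := LinearMap.finrank_range_add_finrank_ker u
    have h3 := Submodule.finrank_le (LinearMap.range u)
    rw [Module.finrank_self] at h3
    have h4 := hM.two
    have h5 : 0 < Module.finrank K (LinearMap.ker u) := by omega
    have i5 := Module.nontrivial_of_finrank_pos h5
    obtain ⟨⟨L, hL⟩, hL0⟩ := exists_ne (0 : LinearMap.ker u)
    refine ⟨L.1, L.2, ?_, ?_⟩
    · intro h
      exact hL0 (Subtype.ext (Subtype.ext h))
    · exact sub_eq_zero.1 (LinearMap.mem_ker.1 hL)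
  obtain ⟨L, hLM, hL0, hL⟩ := h1
  obtain ⟨c', hy⟩ := hM.fy L hLM
  obtain ⟨c, hc⟩ := hM.fq L hLM
  obtain ⟨h10, h20, h02, h21, h01, h22⟩ := entries hy hc
  have ha := act hf h10 h20 h02 h21 h01 h22
  rw [rho_mulS (hM.ff L hLM), hL, sub_self, map_zero, zero_mul, zero_add, h22, hL] at ha
  have ha2 : Polynomial.C (L 1 2) * Polynomial.derivative (rho K f) +
      Polynomial.C (((r + 2 : ℕ) : K) * L 1 1) * rho K f = 0 := by
    rw [ha]
    congr 3
    ring
  have hdeg : (rho K f).natDegree = 0 := by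
    by_contra hne
    by_cases hz : L 1 1 = 0
    · -- `L 1 2 ≠ 0`
      have hm : L 1 2 ≠ 0 := by
        intro hm
        apply hL0
        funext i j
        fin_cases i <;> fin_cases j <;> simp [h10, h20, h02, h21, h01, h22, hL, hz, hm]
      rw [hz, mul_zero, map_zero, zero_mul, add_zero] at ha2
      have h6 := (mul_eq_zero.1 ha2).resolve_left (by simpa using hm)
      exact hne (Polynomial.derivative_eq_zero.1 h6)
    · have h6 := congrArg (fun p => Polynomial.coeff p (rho K f).natDegree) ha2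
      simp only [Polynomial.coeff_add, Polynomial.coeff_C_mul, Polynomial.coeff_derivative,
        Polynomial.coeff_zero] at h6
      rw [Polynomial.coeff_eq_zero_of_natDegree_lt (Nat.lt_succ_self _), zero_mul, mul_zero,
        zero_add] at h6
      rcases mul_eq_zero.1 h6 with h7 | h7
      · rcases mul_eq_zero.1 h7 with h8 | h8
        · exact absurd h8 (Nat.cast_ne_zero.2 (by omega))
        · exact hz h8
      · have h8 : rho K f = 0 := Polynomial.leadingCoeff_eq_zero.1 h7
        rw [h8] at hne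
        simp at hne
  exact ⟨_, Polynomial.eq_C_of_natDegree_eq_zero hdeg⟩

/-- the diagonal frame -/
theorem ssub_diag (g : Fin 3 → K) (j : Fin 3) :
    ssub (n := 2) (fun i j => if i = j then g i else 0) (X j) = C (g j) * X j := by
  rw [ssub_X, Finset.sum_eq_single j]
  · rw [if_pos rfl]
  · intro i _ hi
    rw [if_neg hi, map_zero, zero_mul]
  · intro h
    exact absurd (Finset.mem_univ _) h

theorem mulS_sub {a b : MvPolynomial (Fin 3) K} {q : MvPolynomial (Fin 3) K} {r : ℕ}
    (h : a ∈ mulS q r) (g : Fin 3 → Fin 3 → K) (hg : ssub (n := 2) g q = q)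
    (hb : ssub (n := 2) g a = b) : b ∈ mulS q r := by
  obtain ⟨u, hu, rfl⟩ := mem_mulS.1 h
  refine mem_mulS.2 ⟨ssub (n := 2) g u, ssub_hom g hu, ?_⟩
  rw [← hb, map_mul, hg]

theorem cfg_diag {f : MvPolynomial (Fin 3) K} {c : K} {r : ℕ}
    (hmem : f - C c * X 2 ^ (r + 2) ∈ mulS (qc K) r)
    {ν : K} (hν : ν ≠ 0) {f0 : MvPolynomial (Fin 3) ℤ}
    (hf0 : MvPolynomial.map (Int.castRingHom K) f0 = C (c * ν ^ (r + 2)) * X 2 ^ (r + 2)) :
    CfgE r (qc K) f ![1, 0, 0] (fun i j => if i = j then (![ν⁻¹, 1, ν] : Fin 3 → K) i else 0)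
      (X 0 * X 2 - X 1 ^ 2) f0 ![1, 0, 0] 1 ν := by
  have hg0 : ∀ i, (![ν⁻¹, 1, ν] : Fin 3 → K) i ≠ 0 := by
    intro i
    fin_cases i
    · exact inv_ne_zero hν
    · exact one_ne_zero
    · exact hν
  have hq : ssub (n := 2) (fun i j => if i = j then (![ν⁻¹, 1, ν] : Fin 3 → K) i else 0)
      (qc K) = qc K := by
    unfold qc
    rw [map_sub, map_mul, map_pow, ssub_diag, ssub_diag, ssub_diag]
    have h1 : (C (ν⁻¹) : MvPolynomial (Fin 3) K) * C ν = 1 := by
      rw [← C_mul, inv_mul_cancel₀ hν, C_1]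
    change C ν⁻¹ * X 0 * (C ν * X 2) - (C 1 * X 1) ^ 2 = _
    rw [C_1, one_mul]
    linear_combination X 0 * X 2 * h1
  refine ⟨?_, one_ne_zero, ?_, ?_, ?_⟩
  · rw [Fintype.linearIndependent_iff]
    intro a ha i
    have h1 := congrFun ha i
    rw [Finset.sum_apply, Finset.sum_eq_single i] at h1
    · rw [Pi.smul_apply, if_pos rfl, smul_eq_mul, Pi.zero_apply] at h1
      exact (mul_eq_zero.1 h1).resolve_right (hg0 i)
    · intro j _ hj
      rw [Pi.smul_apply, if_neg hj, smul_zero]
    · intro h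
      exact absurd (Finset.mem_univ _) h
  · rw [hq, qc_eq, C_1, one_mul]
  · rw [qc_eq, hf0]
    refine mulS_sub hmem _ hq ?_
    rw [map_sub, map_mul, ssub_C, map_pow, ssub_diag]
    change ssub _ f - C c * (C ν * X 2) ^ (r + 2) = _
    rw [mul_pow, C_mul, C_pow, mul_assoc]
  · intro j
    rw [Fin.sum_univ_three]
    fin_cases j
    · simp [hν]
    · simp
    · simp

/-- Row NORM1: the smooth conic. -/
theorem norm1 : NormeStatement (X 0 * X 2 - X 1 ^ 2) := by
  intro K _ _ _ r f _ hf _ _ M hM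
  rw [qc_eq] at hM ⊢
  obtain ⟨c, hc⟩ := rho_const hf hM
  have hmem : f - C c * X 2 ^ (r + 2) ∈ mulS (qc K) r := by
    apply mem_of_rho
    · refine hf.sub ?_
      have := (isHomogeneous_C (Fin 3) c).mul ((isHomogeneous_X K (2 : Fin 3)).pow (r + 2))
      simpa using this
    · rw [map_sub, hc, map_mul, rho_C, map_pow, rho_X2, one_pow, mul_one, sub_self]
  by_cases h0 : c = 0
  · refine ⟨_, 0, ![1, 0, 0], 1, 1, cfg_diag hmem one_ne_zero ?_⟩
    rw [h0, zero_mul, C_0, zero_mul, map_zero]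
  · obtain ⟨ν, hν⟩ := IsAlgClosed.exists_pow_nat_eq (c⁻¹) (n := r + 2) (by omega)
    have hν0 : ν ≠ 0 := by
      rintro rfl
      rw [zero_pow (by omega)] at hν
      exact inv_ne_zero h0 hν.symm
    refine ⟨_, X 2 ^ (r + 2), ![1, 0, 0], 1, ν, cfg_diag hmem hν0 ?_⟩
    rw [hν, mul_inv_cancel₀ h0, C_1, one_mul, map_pow, map_X]

end Pool.Agent.T2C.H12.N1

namespace Pool.Agent.T2C.H12

/-- Row NORM1. -/
theorem norm1 : NormeStatement (MvPolynomial.X 0 * MvPolynomial.X 2 - MvPolynomial.X 1 ^ 2) :=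
  N1.norm1

end Pool.Agent.T2C.H12
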