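import Mathlib

/-!
# MP_c7af3c_ag, project T2C: the closure over `k` of a point of a plane (helper12)
A point of the plane which is on no line over `k`, but a zero of some form over `k`: there is a
form `g` over `k` which divides every form over `k` which vanishes at the point.
-/

set_option autoImplicit false

namespace Pool.Agent.T2C.H12

open MvPolynomial

/-- A homomorphism `B[X] -> E` of domains, injective on `B`, `B` factorial: every irreducible
element of the kernel generates the kernel. -/
theorem ker_principal {B : Type} [CommRing B] [IsDomain B] [UniqueFactorizationMonoid B]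
    {E : Type} [CommRing E] [IsDomain E] (φ : Polynomial B →+* E)
    (hφ : ∀ b, φ (Polynomial.C b) = 0 → b = 0) (g : Polynomial B) (hg : Irreducible g)
    (hg0 : φ g = 0) (h : Polynomial B) (hh : φ h = 0) : g ∣ h := by
  set K := FractionRing B
  set L := FractionRing E
  have hinj : Function.Injective ((algebraMap E L).comp (φ.comp Polynomial.C)) := by
    rw [injective_iff_map_eq_zero]
    intro b hb
    rw [RingHom.comp_apply, RingHom.comp_apply] at hb
    exact hφ b ((IsFractionRing.injective E L) (by rw [hb, map_zero]))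
  let ψ : K →+* L := IsFractionRing.lift hinj
  let Φ : Polynomial K →+* L := Polynomial.eval₂RingHom ψ (algebraMap E L (φ Polynomial.X))
  have hΦ : ∀ P : Polynomial B, Φ (P.map (algebraMap B K)) = algebraMap E L (φ P) := by
    intro P
    have h1 : Φ.comp (Polynomial.mapRingHom (algebraMap B K)) = (algebraMap E L).comp φ := by
      refine Polynomial.ringHom_ext ?_ ?_
      · intro a
        simp only [RingHom.comp_apply, Polynomial.coe_mapRingHom, Polynomial.map_C, Φ,
          Polynomial.coe_eval₂RingHom, Polynomial.eval₂_C]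
        exact IsFractionRing.lift_algebraMap hinj a
      · simp only [RingHom.comp_apply, Polynomial.coe_mapRingHom, Polynomial.map_X, Φ,
          Polynomial.coe_eval₂RingHom, Polynomial.eval₂_X]
    exact congrArg (fun f : Polynomial B →+* L => f P) h1
  have hdeg : g.natDegree ≠ 0 := by
    intro h0
    have h1 := Polynomial.eq_C_of_natDegree_eq_zero h0
    have h2 := hφ (g.coeff 0) (by rw [← h1]; exact hg0)
    rw [h2, map_zero] at h1
    exact hg.ne_zero h1
  have hprim := hg.isPrimitive hdeg
  by_contra hnd
  have hirr : Irreducible (g.map (algebraMap B K)) :=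
    (Polynomial.IsPrimitive.irreducible_iff_irreducible_map_fraction_map hprim).1 hg
  have hnd' : ¬ g.map (algebraMap B K) ∣ h.map (algebraMap B K) := fun hd =>
    hnd (hprim.dvd_of_fraction_map_dvd_fraction_map hd)
  obtain ⟨a, b, hab⟩ := (hirr.coprime_iff_not_dvd).2 hnd'
  have h1 := congrArg Φ hab
  rw [map_add, map_mul, map_mul, hΦ, hΦ, hg0, hh, map_zero, mul_zero, mul_zero, add_zero,
    map_one] at h1
  exact zero_ne_one h1

theorem deg_one {σ : Type} {I : σ →₀ ℕ} (h : I.degree = 1) : ∃ i, Finsupp.single i 1 = I := by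
  obtain ⟨i, hi⟩ := (Finsupp.sum_eq_one_iff I).1 h
  exact ⟨i, hi.symm⟩

theorem deg_hom {R σ : Type} [CommRing R] {p : MvPolynomial σ R} {e : ℕ} (hp : p.IsHomogeneous e)
    {I : σ →₀ ℕ} (hI : coeff I p ≠ 0) : I.degree = e := by
  have h := hp hI
  rw [Finsupp.degree_eq_weight_one]
  exact h

section

variable {Ω : Type} [Field Ω] {k : Subfield Ω} {σ : Type}

/-- the substitution `X_i -> y_i T` -/
noncomputable def ev (k : Subfield Ω) (y : σ → Ω) : MvPolynomial σ k →+* Polynomial Ω :=
  eval₂Hom (Polynomial.C.comp k.subtype) fun i => Polynomial.C (y i) * Polynomial.X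

theorem ev_monomial (y : σ → Ω) (I : σ →₀ ℕ) (a : k) :
    ev k y (monomial I a) =
      Polynomial.C (eval y (map k.subtype (monomial I a))) * Polynomial.X ^ I.degree := by
  unfold ev
  rw [coe_eval₂Hom, eval₂_monomial, map_monomial, eval_monomial]
  simp only [RingHom.comp_apply, mul_pow, Finsupp.prod_mul]
  have h : (I.prod fun _ n => (Polynomial.X : Polynomial Ω) ^ n) = Polynomial.X ^ I.degree := by
    rw [Finsupp.prod, Finset.prod_pow_eq_pow_sum]
    rfl
  rw [h, map_mul, ← mul_assoc]
  congr 2
  rw [Finsupp.prod, Finsupp.prod, map_prod]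
  simp only [map_pow]

theorem ev_coeff (y : σ → Ω) (p : MvPolynomial σ k) (e : ℕ) :
    (ev k y p).coeff e = eval y (map k.subtype (homogeneousComponent e p)) := by
  induction p using MvPolynomial.induction_on' with
  | monomial I a =>
    rw [ev_monomial, Polynomial.coeff_C_mul, Polynomial.coeff_X_pow,
      homogeneousComponent_of_mem (isHomogeneous_monomial a rfl)]
    split_ifs
    · rw [mul_one]
    · rw [mul_zero, map_zero, map_zero]
  | add p q hp hq => rw [map_add, Polynomial.coeff_add, hp, hq, map_add, map_add, map_add]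

theorem ev_hom (y : σ → Ω) {p : MvPolynomial σ k} {e : ℕ} (hp : p.IsHomogeneous e) :
    ev k y p = 0 ↔ eval y (map k.subtype p) = 0 := by
  constructor
  · intro h
    have h1 := ev_coeff y p e
    rw [h, Polynomial.coeff_zero, homogeneousComponent_eq_self hp] at h1
    exact h1.symm
  · intro h
    ext i
    rw [ev_coeff, Polynomial.coeff_zero, homogeneousComponent_of_mem hp]
    split_ifs
    · exact h
    · rw [map_zero, map_zero]

theorem ev_comp (y : σ → Ω) {p : MvPolynomial σ k} (hp : ev k y p = 0) (e : ℕ) :
    ev k y (homogeneousComponent e p) = 0 := by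
  rw [ev_hom y (homogeneousComponent_isHomogeneous e p), ← ev_coeff, hp, Polynomial.coeff_zero]

theorem map_sub_inj : Function.Injective (map k.subtype : MvPolynomial σ k → MvPolynomial σ Ω) :=
  map_injective _ Subtype.val_injective

/-- forms over `k` come from polynomials over `k` -/
theorem exists_lift {h : MvPolynomial σ Ω} (hk : ∀ I, coeff I h ∈ k) :
    ∃ h' : MvPolynomial σ k, map k.subtype h' = h := by
  have h1 : h ∈ Set.range (MvPolynomial.map k.subtype) := by
    rw [mem_range_map_iff_coeffs_subset]
    intro c hc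
    rw [Finset.mem_coe, mem_coeffs_iff] at hc
    obtain ⟨I, -, rfl⟩ := hc
    exact ⟨⟨coeff I h, hk I⟩, rfl⟩
  exact h1

theorem hom_lift {h' : MvPolynomial σ k} {e : ℕ} (h : (map k.subtype h').IsHomogeneous e) :
    h'.IsHomogeneous e := by
  intro I hI
  refine h (d := I) ?_
  rw [coeff_map]
  intro h0
  exact hI (Subtype.val_injective h0)

end

section

variable {Ω : Type} [Field Ω] {k : Subfield Ω}

/-- a binary form over `k` which vanishes at a point outside `k` is zero -/
theorem binary (hk : ∀ (z : Ω) (p : Polynomial Ω), p ≠ 0 → (∀ i, p.coeff i ∈ k) →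
      p.eval z = 0 → z ∈ k) (y : Fin 2 → Ω)
    (hy : ∀ b : Fin 2 → Ω, (∀ i, b i ∈ k) → ∑ i, b i * y i = 0 → b = 0)
    {q : MvPolynomial (Fin 2) k} {e : ℕ} (hq : q.IsHomogeneous e)
    (h0 : eval y (map k.subtype q) = 0) : q = 0 := by
  have hy1 : y 1 ≠ 0 := by
    intro h
    have := hy ![0, 1] (by
      intro i
      fin_cases i
      · exact k.zero_mem
      · exact k.one_mem) (by simp [Fin.sum_univ_two, h])
    exact one_ne_zero (congrFun this 1)
  set P : Polynomial Ω := ∑ I ∈ q.support, Polynomial.C ((coeff I q : k) : Ω) *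
    Polynomial.X ^ (I 0) with hP
  have hdeg : ∀ I ∈ q.support, I 0 + I 1 = e := by
    intro I hI
    have h := hq (mem_support_iff.1 hI)
    rw [← h]
    change _ = Finsupp.weight (fun _ => 1) I
    rw [← Finsupp.degree_eq_weight_one, Finsupp.degree_eq_sum, Fin.sum_univ_two]
  have hPz : P.eval (y 0 / y 1) * y 1 ^ e = 0 := by
    rw [← h0, hP, Polynomial.eval_finsetSum, Finset.sum_mul, eval_map, eval₂_eq']
    refine Finset.sum_congr rfl fun I hI => ?_
    rw [Polynomial.eval_mul, Polynomial.eval_C, Polynomial.eval_pow, Polynomial.eval_X, div_pow,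
      ← hdeg I hI, pow_add, Fin.prod_univ_two]
    have : y 1 ^ I 0 ≠ 0 := pow_ne_zero _ hy1
    change ((coeff I q : k) : Ω) * (y 0 ^ I 0 / y 1 ^ I 0) * (y 1 ^ I 0 * y 1 ^ I 1) =
      ((coeff I q : k) : Ω) * (y 0 ^ I 0 * y 1 ^ I 1)
    field_simp
  have hPk : ∀ i, P.coeff i ∈ k := by
    intro i
    rw [hP, Polynomial.finsetSum_coeff]
    refine k.sum_mem fun I _ => ?_
    rw [Polynomial.coeff_C_mul, Polynomial.coeff_X_pow]
    split_ifs
    · rw [mul_one]; exact (coeff I q).2
    · rw [mul_zero]; exact k.zero_mem
  have hP0 : P = 0 := by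
    by_contra hne
    have hz := hk (y 0 / y 1) P hne hPk ((mul_eq_zero.1 hPz).resolve_right (pow_ne_zero _ hy1))
    have := hy ![1, -(y 0 / y 1)] (by
      intro i
      fin_cases i
      · exact k.one_mem
      · exact k.neg_mem hz) (by
      rw [Fin.sum_univ_two]
      simp only [Matrix.cons_val_zero, Matrix.cons_val_one]
      field_simp
      ring)
    exact one_ne_zero (congrFun this 0)
  by_contra hne
  obtain ⟨I, hI⟩ := MvPolynomial.ne_zero_iff.1 hne
  have hIs : I ∈ q.support := mem_support_iff.2 hI
  have h1 : P.coeff (I 0) = ((coeff I q : k) : Ω) := by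
    rw [hP, Polynomial.finsetSum_coeff, Finset.sum_eq_single I]
    · rw [Polynomial.coeff_C_mul, Polynomial.coeff_X_pow, if_pos rfl, mul_one]
    · intro J hJ hJI
      rw [Polynomial.coeff_C_mul, Polynomial.coeff_X_pow, if_neg, mul_zero]
      intro h
      apply hJI
      have h2 := hdeg I hIs
      have h3 := hdeg J hJ
      ext i
      fin_cases i
      · exact h.symm
      · change J 1 = I 1
        omega
    · intro h
      exact absurd hIs h
  rw [hP0, Polynomial.coeff_zero] at h1
  exact hI (Subtype.val_injective h1.symm)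

/-- CLOS: the closure over `k` of a point of a plane which is a zero of a form over `k`. -/
theorem clos (hk : ∀ (z : Ω) (p : Polynomial Ω), p ≠ 0 → (∀ i, p.coeff i ∈ k) →
      p.eval z = 0 → z ∈ k) (y : Fin 3 → Ω)
    (hy : ∀ b : Fin 3 → Ω, (∀ i, b i ∈ k) → ∑ i, b i * y i = 0 → b = 0)
    {e : ℕ} {h : MvPolynomial (Fin 3) Ω} (hh : h.IsHomogeneous e) (hhk : ∀ I, coeff I h ∈ k)
    (h0 : h ≠ 0) (hy0 : eval y h = 0) :
    ∃ (e' : ℕ) (g : MvPolynomial (Fin 3) Ω), g.IsHomogeneous e' ∧ (∀ I, coeff I g ∈ k) ∧
      2 ≤ e' ∧ g ≠ 0 ∧ eval y g = 0 ∧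
      ∀ (e'' : ℕ) (h' : MvPolynomial (Fin 3) Ω), h'.IsHomogeneous e'' →
        (∀ I, coeff I h' ∈ k) → eval y h' = 0 →
        ∃ q : MvPolynomial (Fin 3) Ω, q.IsHomogeneous (e'' - e') ∧ (∀ I, coeff I q ∈ k) ∧
          h' = g * q ∧ (h' ≠ 0 → e' ≤ e'') := by
  -- the kernel of `ev` meets `k[X_1, X_2]` in zero
  have hinj : ∀ p : MvPolynomial (Fin 2) k, ev k y (rename Fin.succ p) = 0 → p = 0 := by
    intro p hp
    have h1 : ∀ e, homogeneousComponent e p = 0 := by
      intro e
      have h2 := ev_comp y hp e
      rw [← rename_homogeneousComponent] at h2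
      rw [ev_hom y ((homogeneousComponent_isHomogeneous e p).rename_isHomogeneous),
        map_rename, eval_rename] at h2
      refine binary hk (y ∘ Fin.succ) ?_ (homogeneousComponent_isHomogeneous e p) h2
      intro b hb hb0
      have h3 := hy (Fin.cons 0 b) (by
        intro i
        refine Fin.cases ?_ (fun j => ?_) i
        · exact k.zero_mem
        · exact hb j) (by
        rw [Fin.sum_univ_succ]
        simpa using hb0)
      funext j
      have := congrFun h3 j.succ
      simpa using this
    rw [← sum_homogeneousComponent p]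
    exact Finset.sum_eq_zero fun e _ => h1 e
  let φ : Polynomial (MvPolynomial (Fin 2) k) →+* Polynomial Ω :=
    (ev k y).comp ((finSuccEquiv k 2).symm : _ →+* _)
  have hφ : ∀ b, φ (Polynomial.C b) = 0 → b = 0 := by
    intro b hb
    apply hinj
    have h1 : (finSuccEquiv k 2).symm (Polynomial.C b) = rename Fin.succ b := by
      rw [AlgEquiv.symm_apply_eq]
      have h2 : ((finSuccEquiv k 2 : MvPolynomial (Fin 3) k →+* _).comp
          (rename Fin.succ : MvPolynomial (Fin 2) k →ₐ[k] MvPolynomial (Fin 3) k).toRingHom) =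
          Polynomial.C := by
        refine MvPolynomial.ringHom_ext ?_ ?_
        · intro a
          simp [finSuccEquiv_apply]
        · intro i
          simp [finSuccEquiv_X_succ]
      exact (congrArg (fun f : MvPolynomial (Fin 2) k →+* _ => f b) h2).symm
    rw [← h1]
    exact hb
  have hdvd : ∀ g h : MvPolynomial (Fin 3) k, Irreducible g → ev k y g = 0 → ev k y h = 0 →
      g ∣ h := by
    intro g h hg hg0 hh0
    have h1 := ker_principal φ hφ (finSuccEquiv k 2 g)
      ((MulEquiv.irreducible_iff (finSuccEquiv k 2)).2 hg)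
      (by
        change ev k y ((finSuccEquiv k 2).symm (finSuccEquiv k 2 g)) = 0
        rw [AlgEquiv.symm_apply_apply]
        exact hg0)
      (finSuccEquiv k 2 h) (by
        change ev k y ((finSuccEquiv k 2).symm (finSuccEquiv k 2 h)) = 0
        rw [AlgEquiv.symm_apply_apply]
        exact hh0)
    exact (map_dvd_iff (finSuccEquiv k 2)).1 h1
  -- an irreducible factor
  obtain ⟨h1, rfl⟩ := exists_lift hhk
  have hh1 : h1.IsHomogeneous e := hom_lift hh
  have hev : ev k y h1 = 0 := (ev_hom y hh1).2 hy0
  have hne : h1 ≠ 0 := by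
    rintro rfl
    exact h0 (map_zero _)
  obtain ⟨f, hf, hprod⟩ := WfDvdMonoid.exists_factors h1 hne
  obtain ⟨g, hgf, hg0⟩ : ∃ g ∈ f, ev k y g = 0 := by
    obtain ⟨u, hu⟩ := hprod
    have h2 : ev k y f.prod = 0 := by
      have h3 : ev k y (f.prod * u) = 0 := by rw [hu]; exact hev
      rw [map_mul] at h3
      rcases mul_eq_zero.1 h3 with h3 | h3
      · exact h3
      · exact absurd h3 (IsUnit.ne_zero ((Units.isUnit u).map (ev k y)))
    rw [map_multiset_prod, Multiset.prod_eq_zero_iff, Multiset.mem_map] at h2
    obtain ⟨g, hg, hg0⟩ := h2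
    exact ⟨g, hg, hg0⟩
  have hgirr := hf g hgf
  have hgd : ∀ h : MvPolynomial (Fin 3) k, ev k y h = 0 → g ∣ h := fun h hh =>
    hdvd g h hgirr hg0 hh
  -- `g` is homogeneous up to a factor
  set e' := g.totalDegree with he'
  set g0 := homogeneousComponent e' g with hg0'
  have hg0h : g0.IsHomogeneous e' := homogeneousComponent_isHomogeneous _ _
  have hg0ne : g0 ≠ 0 := by
    obtain ⟨I, hI, hIe⟩ : ∃ I ∈ g.support, I.degree = e' := by
      have h2 : g.support.Nonempty := support_nonempty.2 hgirr.ne_zero
      obtain ⟨I, hI, h3⟩ := Finset.exists_mem_eq_sup _ h2 fun s : Fin 3 →₀ ℕ =>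
        s.sum fun _ e => e
      exact ⟨I, hI, h3.symm⟩
    intro h2
    have h3 := congrArg (coeff I) h2
    rw [hg0', coeff_homogeneousComponent, if_pos hIe, coeff_zero] at h3
    exact mem_support_iff.1 hI h3
  have hg0ev : ev k y g0 = 0 := ev_comp y hg0 e'
  obtain ⟨u, hu⟩ := hgd g0 hg0ev
  have hune : u ≠ 0 := by
    rintro rfl
    rw [mul_zero] at hu
    exact hg0ne hu
  have hudeg : u.totalDegree = 0 := by
    have h2 : g0.totalDegree = e' := hg0h.totalDegree hg0ne
    rw [hu, totalDegree_mul_of_isDomain hgirr.ne_zero hune] at h2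
    omega
  obtain ⟨a, ha⟩ : ∃ a, u = C a := ⟨_, totalDegree_eq_zero_iff_eq_C.1 hudeg⟩
  have hane : a ≠ 0 := by
    rintro rfl
    rw [map_zero] at ha
    exact hune ha
  have hg0d : ∀ h : MvPolynomial (Fin 3) k, ev k y h = 0 → ∃ w, h = g0 * w := by
    intro h hh
    obtain ⟨w, hw⟩ := hgd h hh
    refine ⟨C a⁻¹ * w, ?_⟩
    rw [hw, hu, ha]
    have h2 : (C a * C a⁻¹ : MvPolynomial (Fin 3) k) = 1 := by
      rw [← C_mul, mul_inv_cancel₀ hane, C_1]
    calc g * w = g * (C a * C a⁻¹) * w := by rw [h2, mul_one]
      _ = g * C a * (C a⁻¹ * w) := by ring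
  refine ⟨e', map k.subtype g0, ?_, ?_, ?_, ?_, ?_, ?_⟩
  · exact hg0h.map _
  · intro I
    rw [coeff_map]
    exact (coeff I g0).2
  · by_contra hlt
    have h2 : e' = 0 ∨ e' = 1 := by omega
    rcases h2 with h2 | h2
    · rw [h2] at hg0h
      have h3 : g0 = C (coeff 0 g0) := by
        have := homogeneousComponent_zero g0
        rwa [homogeneousComponent_eq_self hg0h] at this
      rw [h3] at hg0ev
      unfold ev at hg0ev
      rw [coe_eval₂Hom, eval₂_C, RingHom.comp_apply, Polynomial.C_eq_zero] at hg0ev
      have h4 : coeff 0 g0 = 0 := Subtype.val_injective hg0ev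
      rw [h4, map_zero] at h3
      exact hg0ne h3
    · rw [h2] at hg0h
      have h3 : eval y (map k.subtype g0) = ∑ i, ((coeff (Finsupp.single i 1) g0 : k) : Ω) * y i := by
        have h4 : g0 = ∑ i, C (coeff (Finsupp.single i 1) g0) * X i := by
          refine MvPolynomial.ext _ _ fun I => ?_
          rw [coeff_sum]
          simp only [coeff_C_mul, coeff_X]
          by_cases hI : I.degree = 1
          · obtain ⟨i, rfl⟩ := deg_one hI
            rw [Finset.sum_eq_single i]
            · rw [if_pos rfl, mul_one]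
            · intro j _ hj
              rw [if_neg, mul_zero]
              intro hji
              exact hj (Finsupp.single_left_injective one_ne_zero hji)
            · intro h; exact absurd (Finset.mem_univ _) h
          · rw [Finset.sum_eq_zero]
            · by_contra hc
              exact hI (deg_hom hg0h hc)
            · intro j _
              rw [if_neg, mul_zero]
              rintro rfl
              exact hI (Finsupp.degree_single _ _)
        conv_lhs => rw [h4]
        rw [map_sum, map_sum]
        refine Finset.sum_congr rfl fun i _ => ?_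
        rw [map_mul, map_mul, map_C, map_X, eval_C, eval_X]
        rfl
      have h5 := (ev_hom y hg0h).1 hg0ev
      rw [h3] at h5
      have h6 := hy _ (fun i => (coeff (Finsupp.single i 1) g0).2) h5
      apply hg0ne
      refine MvPolynomial.ext _ _ fun I => ?_
      rw [coeff_zero]
      by_contra hc
      have h7 := deg_hom hg0h hc
      obtain ⟨i, rfl⟩ := deg_one h7
      exact hc (Subtype.val_injective (congrFun h6 i))
  · intro h2
    exact hg0ne (map_sub_inj (by rw [h2, map_zero]))
  · exact (ev_hom y hg0h).1 hg0ev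
  · intro e'' h' hh' hhk' hy'
    obtain ⟨h2, rfl⟩ := exists_lift hhk'
    have hh2 : h2.IsHomogeneous e'' := hom_lift hh'
    obtain ⟨w, hw⟩ := hg0d h2 ((ev_hom y hh2).2 hy')
    by_cases hle : e' ≤ e''
    · refine ⟨map k.subtype (homogeneousComponent (e'' - e') w), ?_, ?_, ?_, fun _ => hle⟩
      · exact (homogeneousComponent_isHomogeneous _ _).map _
      · intro I
        rw [coeff_map]
        exact Subtype.property _
      · rw [← map_mul]
        congr 1
        have h3 : homogeneousComponent e'' h2 = h2 := homogeneousComponent_eq_self hh2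
        rw [← h3]
        conv_lhs => rw [hw, ← sum_homogeneousComponent w, Finset.mul_sum, map_sum]
        have h4 : ∀ i, homogeneousComponent e'' (g0 * homogeneousComponent i w) =
            if e'' = e' + i then g0 * homogeneousComponent i w else 0 := fun i =>
          homogeneousComponent_of_mem (hg0h.mul (homogeneousComponent_isHomogeneous i w))
        simp only [h4]
        by_cases hr : e'' - e' < w.totalDegree + 1
        · rw [Finset.sum_eq_single (e'' - e')]
          · rw [if_pos (by omega)]
          · intro j _ hj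
            rw [if_neg (by omega)]
          · intro h5
            exact absurd (Finset.mem_range.2 hr) h5
        · rw [homogeneousComponent_eq_zero (e'' - e') w (by omega), mul_zero]
          refine Finset.sum_eq_zero fun j hj => ?_
          rw [Finset.mem_range] at hj
          rw [if_neg (by omega)]
    · have h3 : h2 = 0 := by
        by_contra hne2
        have h4 : w ≠ 0 := by
          rintro rfl
          rw [mul_zero] at hw
          exact hne2 hw
        have h5 := hh2.totalDegree hne2
        rw [hw, totalDegree_mul_of_isDomain hg0ne h4, hg0h.totalDegree hg0ne] at h5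
        omega
      refine ⟨0, isHomogeneous_zero _ _ _, fun I => ?_, ?_, ?_⟩
      · rw [coeff_zero]; exact k.zero_mem
      · rw [h3, map_zero, mul_zero]
      · intro h4
        exact absurd (by rw [h3, map_zero]) h4

end

end Pool.Agent.T2C.H12
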