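import Pool.Agent.Lib.MP_c7af3c_ag.T2.H54.Basic
import Pool.Agent.Lib.MP_c7af3c_ag.T2C.H2.Curve
import Pool.Agent.Lib.MP_c7af3c_ag.T2C.H12.Clos
import Pool.Agent.Lib.MP_c7af3c_ag.T2C.IfaceA
import Pool.Agent.Lib.MP_c7af3c_ag.GEN.H12.Reln

/-!
# MP_c7af3c_ag, project T2C, row NOPL for the type (2, 2, 4) (helper12)
The point is on no plane over `k`. By NOCURVE and CLOS a plane over `k` through the point lies in
the two quadrics; then it is killed by the derivations dual to the coefficients of the quartic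
(12 = 12), and the sizes of `y x D(y)` are too small.
-/

set_option autoImplicit false

namespace Pool.Agent.T2C.H12

open MvPolynomial Pool.Agent.Gen Pool.Agent.Sharp Pool.Agent.Edge
open Pool.Agent.T2 (Sizes Sit)
open Pool.Agent.Edge.H65 (ssub ssub_hom pderiv_ssub)

/-! ### the relation for one form -/

theorem reln1 {L : Type} [Field L] {n c : ℕ} {d : Fin c → ℕ} (D : DSys L n c d)
    (u : Fin (n + 1) → L) {m m' : Fin c} (h0 : eval u (D.F m') = 0) {I : Fin (n + 1) →₀ ℕ}
    (hI : I.degree = d m) :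
    ∑ p, eval u (pderiv p (D.F m')) * D.del m I (u p) =
      if m = m' then - ∏ i, u i ^ I i else 0 := by
  classical
  have h1 := Gen.H12.der_eval (D.del m I) u (D.F m')
  rw [h0, map_zero] at h1
  have h2 : Gen.H12.cpart (D.del m I) u (D.F m') = if m = m' then ∏ i, u i ^ I i else 0 := by
    have h3 : ∀ J ∈ (D.F m').support, D.del m I (coeff J (D.F m')) =
        if m = m' ∧ I = J then 1 else 0 := by
      intro J hJ
      exact D.dual m I m' J hI (by
        have := (D.hom m') (mem_support_iff.1 hJ)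
        rw [← this, Finsupp.degree_eq_weight_one]
        rfl)
    unfold Gen.H12.cpart
    rw [Finset.sum_congr rfl (fun J hJ => by rw [h3 J hJ])]
    by_cases hm : m = m'
    · rw [if_pos hm]
      subst hm
      have h4 : I ∈ (D.F m).support := by
        rw [mem_support_iff]
        intro h5
        have h6 := D.dual m I m I hI hI
        rw [h5, map_zero, if_pos ⟨rfl, rfl⟩] at h6
        exact zero_ne_one h6
      rw [Finset.sum_eq_single I]
      · rw [if_pos ⟨rfl, rfl⟩, one_mul]
      · intro J _ hJ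
        rw [if_neg (fun h => hJ h.2.symm), zero_mul]
      · intro h; exact absurd h4 h
    · rw [if_neg hm]
      apply Finset.sum_eq_zero
      intro J _
      rw [if_neg (fun h => hm h.1), zero_mul]
  rw [h2] at h1
  have h5 : ∑ p, eval u (pderiv p (D.F m')) * D.del m I (u p) =
      - (if m = m' then ∏ i, u i ^ I i else 0) := by
    linear_combination -h1
  rw [h5]
  split_ifs
  · rfl
  · rw [neg_zero]

/-! ### a plane in two quadrics is rigid -/

/-- the two indices of the six quadratic monomials -/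
def qa : Fin 6 → Fin 3 := ![0, 0, 0, 1, 1, 2]

/-- the two indices of the six quadratic monomials -/
def qb : Fin 6 → Fin 3 := ![0, 1, 2, 1, 2, 2]

theorem quad_zero {L : Type} [Field L] (g : Fin 6 → L)
    (h : ∀ z : Fin 3 → ℤ, ∑ r, g r * ((z (qa r) : L) * (z (qb r) : L)) = 0) : g = 0 := by
  have h1 := h ![1, 0, 0]
  have h2 := h ![0, 1, 0]
  have h3 := h ![0, 0, 1]
  have h4 := h ![1, 1, 0]
  have h5 := h ![1, 0, 1]
  have h6 := h ![0, 1, 1]
  simp [Fin.sum_univ_six, qa, qb] at h1 h2 h3 h4 h5 h6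
  funext r
  fin_cases r
  · exact h1
  · change g 1 = 0
    linear_combination h4 - h1 - h2
  · change g 2 = 0
    linear_combination h5 - h1 - h3
  · exact h2
  · change g 4 = 0
    linear_combination h6 - h2 - h3
  · exact h3

theorem card_compl (t : Fin 3 → Fin (6 + 1)) (ht : Function.Injective t) :
    Fintype.card {p : Fin (6 + 1) // ∀ j, t j ≠ p} = 4 := by
  classical
  rw [Fintype.card_subtype]
  have h : (Finset.univ.filter fun p => ∀ j, t j ≠ p) = (Finset.univ.image t)ᶜ := by
    ext p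
    simp
  rw [h, Finset.card_compl, Finset.card_image_of_injective _ ht]
  rfl

theorem rigid {L : Type} [Field L] {d : Fin 3 → ℕ} (D : DSys L 6 3 d) {m0 : Fin 3}
    (hd2 : ∀ m, m ≠ m0 → d m = 2) {t : Fin 3 → Fin (6 + 1)} {P : Fin 3 → Fin (6 + 1) → L}
    (Pt : ∀ i j, P i (t j) = if i = j then 1 else 0)
    (hq : ∀ m, m ≠ m0 → ∀ z : Fin 3 → L, eval (fun p => ∑ i, z i * P i p) (D.F m) = 0)
    {I0 : Fin (6 + 1) →₀ ℕ} (hI0 : I0.degree = d m0) (i : Fin 3) (p : Fin (6 + 1)) :
    D.del m0 I0 (P i p) = 0 := by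
  classical
  have ht : Function.Injective t := by
    intro a b hab
    have h1 := Pt a a
    have h2 := Pt a b
    rw [← hab, h1, if_pos rfl] at h2
    by_contra hne
    rw [if_neg hne] at h2
    exact one_ne_zero h2
  -- the monomials
  let Q : Fin 6 → (Fin (6 + 1) →₀ ℕ) := fun r =>
    Finsupp.single (t (qa r)) 1 + Finsupp.single (t (qb r)) 1
  have hQ : ∀ m, m ≠ m0 → ∀ r, (Q r).degree = d m := by
    intro m hm r
    rw [hd2 m hm, map_add, Finsupp.degree_single, Finsupp.degree_single]
  -- the relation for integral points of the plane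
  have key : ∀ (z : Fin 3 → ℤ) (m' : Fin 3), m' ≠ m0 → ∀ (m : Fin 3) (I : Fin (6 + 1) →₀ ℕ),
      I.degree = d m →
      ∑ p, eval (fun p => ∑ i, (z i : L) * P i p) (pderiv p (D.F m')) *
        ∑ i, (z i : L) * D.del m I (P i p) =
      if m = m' then - ∏ q, (∑ i, (z i : L) * P i q) ^ I q else 0 := by
    intro z m' hm' m I hI
    rw [← reln1 D (fun p => ∑ i, (z i : L) * P i p) (hq m' hm' _) hI]
    refine Finset.sum_congr rfl fun p _ => ?_
    congr 1
    rw [map_sum]
    refine Finset.sum_congr rfl fun i _ => ?_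
    rw [Derivation.leibniz, Derivation.map_intCast, smul_zero, add_zero, smul_eq_mul]
  have hzt : ∀ (z : Fin 3 → ℤ) (a : Fin 3), ∑ i, (z i : L) * P i (t a) = (z a : L) := by
    intro z a
    simp only [Pt, mul_ite, mul_one, mul_zero, Finset.sum_ite_eq', Finset.mem_univ, if_true]
  have hprod : ∀ (z : Fin 3 → ℤ) (r : Fin 6),
      ∏ q, (∑ i, (z i : L) * P i q) ^ (Q r) q = (z (qa r) : L) * (z (qb r) : L) := by
    intro z r
    have h1 : ∀ (w : Fin (6 + 1) → L) (a : Fin (6 + 1)),
        ∏ q, w q ^ (Finsupp.single a 1 : Fin (6 + 1) →₀ ℕ) q = w a := by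
      intro w a
      rw [Finset.prod_eq_single a]
      · rw [Finsupp.single_eq_same, pow_one]
      · intro b _ hb
        rw [Finsupp.single_eq_of_ne hb, pow_zero]
      · intro h; exact absurd (Finset.mem_univ _) h
    simp only [Q, Finsupp.add_apply, pow_add, Finset.prod_mul_distrib]
    rw [h1 (fun q => ∑ i, (z i : L) * P i q), h1 (fun q => ∑ i, (z i : L) * P i q), hzt, hzt]
  have hE0 : ∀ (m : Fin 3) (I : Fin (6 + 1) →₀ ℕ) (i j : Fin 3), D.del m I (P i (t j)) = 0 := by
    intro m I i j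
    rw [Pt]
    split_ifs
    · exact (D.del m I).map_one_eq_zero
    · exact map_zero _
  by_contra hne
  let ι := {p : Fin (6 + 1) // ∀ j, t j ≠ p}
  let v : Option ({m : Fin 3 // m ≠ m0} × Fin 6) → (Fin 3 × ι → L) := fun s =>
    match s with
    | none => fun q => D.del m0 I0 (P q.1 q.2.1)
    | some s => fun q => D.del s.1.1 (Q s.2) (P q.1 q.2.1)
  have hli : LinearIndependent L v := by
    rw [Fintype.linearIndependent_iff]
    intro g hg
    rw [Fintype.sum_option] at hg
    have hfull : ∀ i p, g none * D.del m0 I0 (P i p) +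
        ∑ s, g (some s) * D.del s.1.1 (Q s.2) (P i p) = 0 := by
      intro i p
      by_cases hp : ∀ j, t j ≠ p
      · have h1 := congrFun hg (i, ⟨p, hp⟩)
        rw [Pi.add_apply, Finset.sum_apply] at h1
        simpa [v] using h1
      · push Not at hp
        obtain ⟨j, rfl⟩ := hp
        rw [hE0, mul_zero, zero_add]
        exact Finset.sum_eq_zero fun s _ => by rw [hE0, mul_zero]
    have hz : ∀ (m' : Fin 3) (hm' : m' ≠ m0) (z : Fin 3 → ℤ),
        ∑ r, g (some (⟨m', hm'⟩, r)) * ((z (qa r) : L) * (z (qb r) : L)) = 0 := by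
      intro m' hm' z
      have h1 : ∑ p, eval (fun p => ∑ i, (z i : L) * P i p) (pderiv p (D.F m')) *
          ∑ i, (z i : L) * (g none * D.del m0 I0 (P i p) +
            ∑ s, g (some s) * D.del s.1.1 (Q s.2) (P i p)) = 0 := by
        refine Finset.sum_eq_zero fun p _ => ?_
        rw [Finset.sum_eq_zero fun i _ => by rw [hfull, mul_zero], mul_zero]
      have h2 : ∑ p, eval (fun p => ∑ i, (z i : L) * P i p) (pderiv p (D.F m')) *
          ∑ i, (z i : L) * (g none * D.del m0 I0 (P i p) +
            ∑ s, g (some s) * D.del s.1.1 (Q s.2) (P i p)) =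
          g none * (∑ p, eval (fun p => ∑ i, (z i : L) * P i p) (pderiv p (D.F m')) *
            ∑ i, (z i : L) * D.del m0 I0 (P i p)) +
          ∑ s, g (some s) * (∑ p, eval (fun p => ∑ i, (z i : L) * P i p) (pderiv p (D.F m')) *
            ∑ i, (z i : L) * D.del s.1.1 (Q s.2) (P i p)) := by
        simp only [mul_add, Finset.mul_sum, Finset.sum_add_distrib]
        congr 1
        · refine Finset.sum_congr rfl fun p _ => Finset.sum_congr rfl fun i _ => ?_
          ring
        · rw [Finset.sum_comm (s := Finset.univ (α := {m : Fin 3 // m ≠ m0} × Fin 6))]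
          refine Finset.sum_congr rfl fun p _ => ?_
          rw [Finset.sum_comm]
          refine Finset.sum_congr rfl fun s _ => Finset.sum_congr rfl fun i _ => ?_
          ring
      rw [h2, key z m' hm' m0 I0 hI0, if_neg (Ne.symm hm'), mul_zero, zero_add] at h1
      have h3 : ∀ s : {m : Fin 3 // m ≠ m0} × Fin 6,
          (∑ p, eval (fun p => ∑ i, (z i : L) * P i p) (pderiv p (D.F m')) *
            ∑ i, (z i : L) * D.del s.1.1 (Q s.2) (P i p)) =
          if s.1.1 = m' then - ((z (qa s.2) : L) * (z (qb s.2) : L)) else 0 := by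
        intro s
        rw [key z m' hm' s.1.1 (Q s.2) (hQ _ s.1.2 _), hprod]
      simp only [h3] at h1
      rw [Fintype.sum_prod_type, Finset.sum_eq_single ⟨m', hm'⟩] at h1
      · simp only [if_pos, mul_neg, Finset.sum_neg_distrib, neg_eq_zero] at h1
        exact h1
      · intro b _ hb
        refine Finset.sum_eq_zero fun r _ => ?_
        rw [if_neg, mul_zero]
        intro h
        exact hb (Subtype.ext h)
      · intro h; exact absurd (Finset.mem_univ _) h
    have hs : ∀ s, g (some s) = 0 := by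
      rintro ⟨⟨m', hm'⟩, r⟩
      exact congrFun (quad_zero (fun r => g (some (⟨m', hm'⟩, r))) (hz m' hm')) r
    rintro (_ | s)
    · have h1 := hfull i p
      rw [Finset.sum_eq_zero fun s _ => by rw [hs s, zero_mul], add_zero] at h1
      exact (mul_eq_zero.1 h1).resolve_right hne
    · exact hs s
  have h1 := hli.fintype_card_le_finrank
  rw [Module.finrank_fintype_fun_eq_card, Fintype.card_prod, card_compl t ht,
    Fintype.card_option, Fintype.card_prod, Fintype.card_fin, Fintype.card_fin] at h1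
  have h2 : Fintype.card {m : Fin 3 // m ≠ m0} = 2 := by
    rw [Fintype.card_subtype_compl]
    simp
  omega

/-! ### the sizes -/

theorem prod_single {L : Type} [Field L] {n : ℕ} (w : Fin (n + 1) → L) (a : Fin (n + 1)) (r : ℕ) :
    ∏ q, w q ^ (Finsupp.single a r : Fin (n + 1) →₀ ℕ) q = w a ^ r := by
  classical
  rw [Finset.prod_eq_single a]
  · rw [Finsupp.single_eq_same]
  · intro b _ hb
    rw [Finsupp.single_eq_of_ne hb, pow_zero]
  · intro h; exact absurd (Finset.mem_univ _) h

section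

variable {Ω : Type} [Field Ω] {k : Subfield Ω} {Γ : Type} [LinearOrderedCommGroupWithZero Γ]
  {S : Sizes Ω k Γ} {n c : ℕ} {d : Fin c → ℕ} {D : DSys Ω n c d} {x : Fin (n + 1) → Ω}
  {j0 : Fin (n + 1)}

/-- the size of `y_i D(y_j) - y_j D(y_i)` -/
theorem v_wedge (p : S.V) (δ : Derivation ℤ Ω Ω) (hδ : ∀ f, S.v p f ≤ 1 → S.v p (δ f) ≤ S.M p)
    (y : Fin 3 → Ω) (hy : 1 ≤ S.nm y p) (i j : Fin 3) :
    S.v p (y i * δ (y j) - y j * δ (y i)) ≤ S.M p * S.nm y p ^ 2 := by
  obtain ⟨m, h1, h2⟩ := S.exists_nm y p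
  have hm : y m ≠ 0 := by
    intro h0
    rw [h1, h0, map_zero] at hy
    exact absurd hy (not_le.2 zero_lt_one)
  have hu : ∀ i, y i = y m * (y i / y m) := fun i => by field_simp
  have hv : ∀ i, S.v p (y i / y m) ≤ 1 := by
    intro i
    rw [map_div₀]
    exact div_le_one_of_le₀ (h2 i) zero_le
  have hD : ∀ i, δ (y i) = y m * δ (y i / y m) + (y i / y m) * δ (y m) := by
    intro i
    conv_lhs => rw [hu i]
    rw [Derivation.leibniz, smul_eq_mul, smul_eq_mul]
  have h3 : y i * δ (y j) - y j * δ (y i) =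
      y m ^ 2 * ((y i / y m) * δ (y j / y m) - (y j / y m) * δ (y i / y m)) := by
    rw [hD i, hD j]
    have hi := hu i
    have hj := hu j
    set a := y i / y m
    set b := y j / y m
    rw [hi, hj]
    ring
  rw [h3, map_mul, map_pow, ← h1, mul_comm]
  refine mul_le_mul' ?_ le_rfl
  refine (Valuation.map_sub _ _ _).trans (max_le ?_ ?_)
  · rw [map_mul]
    calc _ ≤ 1 * S.M p := mul_le_mul' (hv i) (hδ _ (hv j))
      _ = _ := one_mul _
  · rw [map_mul]
    calc _ ≤ 1 * S.M p := mul_le_mul' (hv j) (hδ _ (hv i))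
      _ = _ := one_mul _

theorem core (hS : Sit S D x j0) {m0 : Fin c} (hd : d m0 = 4) {t : Fin 3 → Fin (n + 1)}
    {P : Fin 3 → Fin (n + 1) → Ω} (t0 : t 0 = j0) (xP : ∀ f, x f = ∑ i, P i f * x (t i))
    (Pk : ∀ i f, P i f ∈ k)
    (yk : ∀ a : Fin 3 → Ω, (∀ i, a i ∈ k) → ∑ i, a i * x (t i) = 0 → a = 0)
    (hfix : ∀ I : Fin (n + 1) →₀ ℕ, I.degree = 4 → ∀ i f, D.del m0 I (P i f) = 0)
    (hg : ∃ i, ∑ p, eval x (pderiv p (D.F m0)) * P i p ≠ 0) : False := by
  classical
  obtain ⟨i0, hi0⟩ := hg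
  set y : Fin 3 → Ω := fun i => x (t i) with hy
  set g : Fin 3 → Ω := fun i => ∑ p, eval x (pderiv p (D.F m0)) * P i p with hgd
  have hgi0 : g i0 ≠ 0 := hi0
  let w : (Fin (n + 1) →₀ ℕ) → Fin 3 → Fin 3 → Ω := fun I i j =>
    y i * D.del m0 I (y j) - y j * D.del m0 I (y i)
  let C' : (Fin (n + 1) →₀ ℕ) → Fin 3 → Ω := fun I => ![w I 1 2, w I 2 0, w I 0 1]
  have y0 : y 0 = 1 := by rw [hy]; simp only [t0]; exact hS.hj0
  -- the two relations
  have R1 : ∀ I : Fin (n + 1) →₀ ℕ, I.degree = 4 →
      ∑ i, g i * D.del m0 I (y i) = - ∏ p, x p ^ I p := by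
    intro I hI
    have h1 := reln1 D x (hS.h0 m0) (m := m0) (I := I) (by rw [hI, hd])
    rw [if_pos rfl] at h1
    rw [← h1]
    have h2 : ∀ p, D.del m0 I (x p) = ∑ i, P i p * D.del m0 I (y i) := by
      intro p
      conv_lhs => rw [xP p]
      rw [map_sum]
      refine Finset.sum_congr rfl fun i _ => ?_
      rw [Derivation.leibniz, hfix I hI, smul_zero, add_zero, smul_eq_mul]
    simp only [h2, hgd, Finset.mul_sum, Finset.sum_mul]
    rw [Finset.sum_comm]
    refine Finset.sum_congr rfl fun p _ => Finset.sum_congr rfl fun i _ => ?_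
    ring
  have R2 : ∑ i, g i * y i = 0 := by
    have h1 := grad_x D x hS.h0 m0
    rw [← h1]
    simp only [hgd, Finset.sum_mul]
    rw [Finset.sum_comm]
    refine Finset.sum_congr rfl fun p _ => ?_
    conv_rhs => rw [xP p]
    rw [Finset.mul_sum]
    refine Finset.sum_congr rfl fun i _ => ?_
    ring
  have R3 : ∀ I : Fin (n + 1) →₀ ℕ, I.degree = 4 → ∀ j,
      ∑ i, g i * w I i j = (∏ p, x p ^ I p) * y j := by
    intro I hI j
    have h1 := R1 I hI
    have h2 : ∑ i, g i * w I i j = (∑ i, g i * y i) * D.del m0 I (y j) -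
        y j * ∑ i, g i * D.del m0 I (y i) := by
      rw [Finset.sum_mul, Finset.mul_sum, ← Finset.sum_sub_distrib]
      refine Finset.sum_congr rfl fun i _ => ?_
      simp only [w]
      ring
    rw [h2, R2, h1]
    ring
  have hdg : ∀ (J : Fin (n + 1) →₀ ℕ) (a : Fin (n + 1)), J.degree = 3 →
      (J + Finsupp.single a 1).degree = 4 := by
    intro J a hJ
    rw [map_add, hJ, Finsupp.degree_single]
  have hxJ : ∀ (J : Fin (n + 1) →₀ ℕ) (a : Fin (n + 1)),
      ∏ p, x p ^ (J + Finsupp.single a 1 : Fin (n + 1) →₀ ℕ) p = (∏ p, x p ^ J p) * x a := by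
    intro J a
    simp only [Finsupp.add_apply, pow_add, Finset.prod_mul_distrib]
    rw [prod_single x a 1, pow_one]
  -- sizes
  have hs1 : ∀ p, 1 ≤ S.nm y p := fun p => S.one_le_nm y p y0
  have hw : ∀ p (I : Fin (n + 1) →₀ ℕ), I.degree = 4 → ∀ i j,
      S.v p (w I i j) ≤ S.M p * S.nm y p ^ 2 := fun p I hI i j =>
    v_wedge p (D.del m0 I) (fun f hf => hS.hdel p m0 I (by rw [hI, hd]) f hf) y (hs1 p) i j
  have hC : ∀ p (I : Fin (n + 1) →₀ ℕ), I.degree = 4 → ∀ l,
      S.v p (C' I l) ≤ S.M p * S.nm y p ^ 2 := by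
    intro p I hI l
    fin_cases l
    · exact hw p I hI 1 2
    · exact hw p I hI 2 0
    · exact hw p I hI 0 1
  have hpos : ∀ p, (0 : Γ) < S.nm y p := fun p => lt_of_lt_of_le zero_lt_one (hs1 p)
  have hG : ∀ p, S.nm y p ^ 3 ≤ S.M p * S.nm g p := by
    intro p
    obtain ⟨m, h1, h2⟩ := S.exists_nm y p
    have h3 := R3 (Finsupp.single (t m) 4) (Finsupp.degree_single _ _) m
    rw [prod_single] at h3
    have h4 : S.nm y p ^ 5 ≤ S.nm g p * (S.M p * S.nm y p ^ 2) := by
      calc S.nm y p ^ 5 = S.v p (x (t m) ^ 4 * y m) := by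
            rw [map_mul, map_pow, h1, pow_succ]
        _ = S.v p (∑ i, g i * w (Finsupp.single (t m) 4) i m) := by rw [h3]
        _ ≤ _ := by
          refine Valuation.map_sum_le _ fun i _ => ?_
          rw [map_mul]
          exact mul_le_mul' (S.le_nm g p i) (hw p _ (Finsupp.degree_single _ _) i m)
    have h5 : S.nm y p ^ 3 * S.nm y p ^ 2 ≤ S.M p * S.nm g p * S.nm y p ^ 2 := by
      calc S.nm y p ^ 3 * S.nm y p ^ 2 = S.nm y p ^ 5 := (pow_add _ 3 2).symm
        _ ≤ _ := h4
        _ = _ := by rw [← mul_assoc, mul_comm (S.nm g p)]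
    exact le_of_mul_le_mul_right h5 (pow_pos (hpos p) 2)
  -- the multipliers
  let c' : (Fin (n + 1) →₀ ℕ) → Fin (n + 1) → Fin (n + 1) → Fin 3 → Ω := fun J a b l =>
    x a * C' (J + Finsupp.single b 1) l - x b * C' (J + Finsupp.single a 1) l
  have hpar : ∀ (J : Fin (n + 1) →₀ ℕ), J.degree = 3 → ∀ a b i j,
      g i * c' J a b j = g j * c' J a b i := by
    intro J hJ a b
    have h1 : ∀ j, ∑ i, g i * (x a * w (J + Finsupp.single b 1) i j -
        x b * w (J + Finsupp.single a 1) i j) = 0 := by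
      intro j
      have h2 := R3 _ (hdg J b hJ) j
      have h3 := R3 _ (hdg J a hJ) j
      rw [hxJ] at h2 h3
      have h4 : ∑ i, g i * (x a * w (J + Finsupp.single b 1) i j -
          x b * w (J + Finsupp.single a 1) i j) =
          x a * (∑ i, g i * w (J + Finsupp.single b 1) i j) -
          x b * ∑ i, g i * w (J + Finsupp.single a 1) i j := by
        rw [Finset.mul_sum, Finset.mul_sum, ← Finset.sum_sub_distrib]
        exact Finset.sum_congr rfl fun i _ => by ring
      rw [h4, h2, h3]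
      ring
    have e0 := h1 0
    have e1 := h1 1
    have e2 := h1 2
    rw [Fin.sum_univ_three] at e0 e1 e2
    simp only [w] at e0 e1 e2
    intro i j
    fin_cases i <;> fin_cases j <;> simp [c', C', w]
    · linear_combination -e2
    · linear_combination e1
    · linear_combination e2
    · linear_combination -e0
    · linear_combination -e1
    · linear_combination e0
  let μ : (Fin (n + 1) →₀ ℕ) → Fin (n + 1) → Fin (n + 1) → Ω := fun J a b => c' J a b i0 / g i0
  have hμ : ∀ (J : Fin (n + 1) →₀ ℕ), J.degree = 3 → ∀ a b l, c' J a b l = μ J a b * g l := by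
    intro J hJ a b l
    have h1 := hpar J hJ a b i0 l
    simp only [μ]
    field_simp
    linear_combination h1
  have hGpos : ∀ p, (0 : Γ) < S.nm g p := by
    intro p
    by_contra h0
    have h1 : S.nm g p = 0 := le_antisymm (not_lt.1 h0) zero_le
    have h2 := hG p
    rw [h1, mul_zero] at h2
    exact absurd h2 (not_le.2 (pow_pos (hpos p) 3))
  have hPs : S.Small fun p => S.nm (fun q : Fin 3 × Fin (n + 1) => P q.1 q.2) p :=
    (S.nm_mem _).2 fun q => Pk q.1 q.2
  have hx : ∀ p a, S.v p (x a) ≤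
      S.nm (fun q : Fin 3 × Fin (n + 1) => P q.1 q.2) p * S.nm y p := by
    intro p a
    rw [xP a]
    refine Valuation.map_sum_le _ fun i _ => ?_
    rw [map_mul]
    exact mul_le_mul' (S.le_nm (fun q : Fin 3 × Fin (n + 1) => P q.1 q.2) p (i, a))
      (S.le_nm y p i)
  have hμk : ∀ (J : Fin (n + 1) →₀ ℕ), J.degree = 3 → ∀ a b, μ J a b ∈ k := by
    intro J hJ a b
    refine T2.Sizes.Small.mem (S := S) ((hPs.mul (S.small_M.mul S.small_M)).mono fun p => ?_)
    obtain ⟨l, h1, -⟩ := S.exists_nm g p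
    have h2 : S.v p (μ J a b) * S.nm g p ≤
        S.nm (fun q : Fin 3 × Fin (n + 1) => P q.1 q.2) p * (S.M p * S.M p) * S.nm g p := by
      calc S.v p (μ J a b) * S.nm g p = S.v p (c' J a b l) := by
            rw [hμ J hJ a b l, map_mul, h1]
        _ ≤ (S.nm (fun q : Fin 3 × Fin (n + 1) => P q.1 q.2) p * S.nm y p) *
            (S.M p * S.nm y p ^ 2) := by
          refine (Valuation.map_sub _ _ _).trans (max_le ?_ ?_)
          · rw [map_mul]
            exact mul_le_mul' (hx p a) (hC p _ (hdg J b hJ) l)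
          · rw [map_mul]
            exact mul_le_mul' (hx p b) (hC p _ (hdg J a hJ) l)
        _ = S.nm (fun q : Fin 3 × Fin (n + 1) => P q.1 q.2) p * S.M p * S.nm y p ^ 3 := by
          rw [mul_mul_mul_comm, ← pow_succ']
        _ ≤ S.nm (fun q : Fin 3 × Fin (n + 1) => P q.1 q.2) p * S.M p *
            (S.M p * S.nm g p) := mul_le_mul' le_rfl (hG p)
        _ = _ := by rw [mul_assoc, mul_assoc, mul_assoc]
    exact le_of_mul_le_mul_right h2 (hGpos p)
  have hrel : ∀ (J : Fin (n + 1) →₀ ℕ), J.degree = 3 → ∀ a b e,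
      x e * μ J a b + x a * μ J b e + x b * μ J e a = 0 := by
    intro J hJ a b e
    simp only [μ, c']
    field_simp
    ring
  have hz1 : ∀ (J : Fin (n + 1) →₀ ℕ), J.degree = 3 → μ J (t 0) (t 1) = 0 := by
    intro J hJ
    have h1 := yk ![μ J (t 1) (t 2), μ J (t 2) (t 0), μ J (t 0) (t 1)] (by
      intro i
      fin_cases i
      · exact hμk J hJ _ _
      · exact hμk J hJ _ _
      · exact hμk J hJ _ _) (by
      rw [Fin.sum_univ_three]
      have h2 := hrel J hJ (t 0) (t 1) (t 2)
      simp only [Matrix.cons_val_zero, Matrix.cons_val_one, Matrix.cons_val]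
      linear_combination h2)
    exact congrFun h1 2
  have hz2 : ∀ (J : Fin (n + 1) →₀ ℕ), J.degree = 3 → ∀ e, μ J e (t 0) = 0 := by
    intro J hJ e
    have h1 := yk ![μ J (t 1) e, μ J e (t 0), 0] (by
      intro i
      fin_cases i
      · exact hμk J hJ _ _
      · exact hμk J hJ _ _
      · exact k.zero_mem) (by
      rw [Fin.sum_univ_three]
      have h2 := hrel J hJ (t 0) (t 1) e
      rw [hz1 J hJ] at h2
      simp only [Matrix.cons_val_zero, Matrix.cons_val_one, Matrix.cons_val]
      linear_combination h2)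
    exact congrFun h1 1
  have hstep : ∀ (J : Fin (n + 1) →₀ ℕ), J.degree = 3 → ∀ e l,
      C' (J + Finsupp.single e 1) l = x e * C' (J + Finsupp.single j0 1) l := by
    intro J hJ e l
    have h1 := hμ J hJ e (t 0) l
    rw [hz2 J hJ, zero_mul] at h1
    simp only [c'] at h1
    rw [t0, hS.hj0] at h1
    linear_combination -h1
  have hpw : ∀ e l (r : ℕ), r ≤ 4 → C' (Finsupp.single e r + Finsupp.single j0 (4 - r)) l =
      x e ^ r * C' (Finsupp.single j0 4) l := by
    intro e l r
    induction r with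
    | zero =>
      intro _
      rw [Finsupp.single_zero, zero_add, pow_zero, one_mul]
    | succ r ih =>
      intro hr
      have h1 := hstep (Finsupp.single e r + Finsupp.single j0 (3 - r)) (by
        rw [map_add, Finsupp.degree_single, Finsupp.degree_single]
        omega) e l
      have h2 : Finsupp.single e r + Finsupp.single j0 (3 - r) + Finsupp.single e 1 =
          Finsupp.single e (r + 1) + Finsupp.single j0 (4 - (r + 1)) := by
        rw [Finsupp.single_add, show 4 - (r + 1) = 3 - r by omega]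
        abel
      have h3 : Finsupp.single e r + Finsupp.single j0 (3 - r) + Finsupp.single j0 1 =
          Finsupp.single e r + Finsupp.single j0 (4 - r) := by
        rw [add_assoc, ← Finsupp.single_add, show 3 - r + 1 = 4 - r by omega]
      rw [h2, h3, ih (by omega)] at h1
      rw [h1]
      ring
  have hc0 : ∀ l, C' (Finsupp.single j0 4) l = 0 := by
    intro l
    by_contra hne
    have h1 : S.Small fun p => S.v p (C' (Finsupp.single j0 4) l) * S.nm y p := by
      refine S.small_M.mono fun p => ?_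
      obtain ⟨m, h1, h2⟩ := S.exists_nm y p
      have h3 := hpw (t m) l 4 le_rfl
      rw [Nat.sub_self, Finsupp.single_zero, add_zero] at h3
      have h4 := hC p (Finsupp.single (t m) 4) (Finsupp.degree_single _ _) l
      rw [h3, map_mul, map_pow] at h4
      change S.v p (y m) ^ 4 * _ ≤ _ at h4
      rw [← h1] at h4
      have h5 : S.v p (C' (Finsupp.single j0 4) l) * S.nm y p ^ 2 * S.nm y p ^ 2 ≤
          S.M p * S.nm y p ^ 2 := by
        calc _ = S.nm y p ^ 4 * S.v p (C' (Finsupp.single j0 4) l) := by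
              rw [mul_assoc, ← pow_add, mul_comm]
          _ ≤ _ := h4
      have h6 := le_of_mul_le_mul_right h5 (pow_pos (hpos p) 2)
      refine le_trans (mul_le_mul' le_rfl ?_) h6
      calc S.nm y p = S.nm y p ^ 1 := (pow_one _).symm
        _ ≤ _ := pow_le_pow_right₀ (hs1 p) (by norm_num)
    have h2 := (S.s01 y0 hne h1).2
    have h3 := yk ![y 1, -1, 0] (by
      intro i
      fin_cases i
      · exact h2 1
      · exact k.neg_mem k.one_mem
      · exact k.zero_mem) (by
      rw [Fin.sum_univ_three]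
      simp only [Matrix.cons_val_zero, Matrix.cons_val_one, Matrix.cons_val]
      change y 1 * y 0 + -1 * y 1 + 0 * y 2 = 0
      rw [y0]
      ring)
    have h4 : (-1 : Ω) = 0 := congrFun h3 1
    exact one_ne_zero (neg_eq_zero.1 h4)
  have h1 := R3 (Finsupp.single j0 4) (Finsupp.degree_single _ _) 0
  rw [prod_single, hS.hj0, one_pow, one_mul, y0, Fin.sum_univ_three] at h1
  have e1 := hc0 1
  have e2 := hc0 2
  simp only [C', Matrix.cons_val_one, Matrix.cons_val, w] at e1 e2 h1
  have h2 : (0 : Ω) = 1 := by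
    rw [← h1]
    linear_combination g 1 * e2 - g 2 * e1
  exact zero_ne_one h2

/-! ### the row -/

/-- the restriction to the plane has coefficients in `k` -/
theorem ssub_k {P : Fin 3 → Fin (n + 1) → Ω} (Pk : ∀ i f, P i f ∈ k)
    {F : MvPolynomial (Fin (n + 1)) Ω} (hF : ∀ I, coeff I F ∈ k) (I : Fin 3 →₀ ℕ) :
    coeff I (ssub P F) ∈ k := by
  obtain ⟨F', rfl⟩ := exists_lift hF
  have h1 : ssub P (map k.subtype F') = map k.subtype (aeval (fun j =>
      ∑ i, C (⟨P i j, Pk i j⟩ : k) * X i : Fin (n + 1) → MvPolynomial (Fin 3) k) F') := by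
    unfold ssub
    clear hF
    induction F' using MvPolynomial.induction_on with
    | C a => simp
    | add F G hF hG => rw [map_add, map_add, map_add, map_add, hF, hG]
    | mul_X F j hF =>
      rw [map_mul, map_mul, map_mul, map_mul, hF, map_X, aeval_X, aeval_X, map_sum]
      simp
  rw [h1, coeff_map]
  exact Subtype.property _

theorem eval_ssub (P : Fin 3 → Fin (n + 1) → Ω) (z : Fin 3 → Ω)
    (F : MvPolynomial (Fin (n + 1)) Ω) :
    eval z (ssub P F) = eval (fun p => ∑ i, z i * P i p) F := by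
  unfold ssub
  induction F using MvPolynomial.induction_on with
  | C a => simp
  | add F G hF hG => rw [map_add, map_add, map_add, hF, hG]
  | mul_X F j hF =>
    rw [map_mul, map_mul, map_mul, hF, aeval_X, eval_X, map_sum]
    congr 1
    refine Finset.sum_congr rfl fun i _ => ?_
    rw [map_mul, eval_C, eval_X, mul_comm]

end

/-- Row NOPL for the type (2, 2, 4). -/
theorem nopl224 {Ω : Type} [Field Ω] [CharZero Ω] {k : Subfield Ω} {Γ : Type}
    [LinearOrderedCommGroupWithZero Γ] {S : Sizes Ω k Γ} {d : Fin 3 → ℕ} {D : DSys Ω 6 3 d}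
    {x : Fin (6 + 1) → Ω} {j0 : Fin (6 + 1)} (hS : Sit S D x j0) {m0 : Fin 3} (hd0 : d m0 = 4)
    (hd2 : ∀ m, m ≠ m0 → d m = 2) {t : Fin 3 → Fin (6 + 1)} {P : Fin 3 → Fin (6 + 1) → Ω}
    (t0 : t 0 = j0) (Pt : ∀ i j, P i (t j) = if i = j then 1 else 0)
    (xP : ∀ f, x f = ∑ i, P i f * x (t i)) (Pk : ∀ i f, P i f ∈ k)
    (yk : ∀ a : Fin 3 → Ω, (∀ i, a i ∈ k) → ∑ i, a i * x (t i) = 0 → a = 0) : False := by
  classical
  have hPli : LinearIndependent Ω P := by
    rw [Fintype.linearIndependent_iff]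
    intro a ha j
    have h1 := congrFun ha (t j)
    rw [Finset.sum_apply] at h1
    simpa [Pt] using h1
  have hxs : x = fun p => ∑ i, x (t i) * P i p := by
    funext p
    rw [xP p]
    exact Finset.sum_congr rfl fun i _ => mul_comm _ _
  have hf0 : ∀ m, eval (fun i => x (t i)) (ssub P (D.F m)) = 0 := by
    intro m
    rw [eval_ssub, ← hxs]
    exact hS.h0 m
  have hfk : ∀ m I, coeff I (ssub P (D.F m)) ∈ k := fun m I => ssub_k Pk (hS.kF m) I
  have hfh : ∀ m, (ssub P (D.F m)).IsHomogeneous (d m) := fun m => ssub_hom P (D.hom m)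
  -- NOCURVE for the degrees 2 and 3
  have hsum : ∀ f : Fin 3 → ℕ, (∀ m, m ≠ m0 → f m = f (m0 + 1)) →
      ∑ m, f m = f m0 + 2 * f (m0 + 1) := by
    intro f hf
    have h1 : ∑ m, f m = f m0 + ∑ m ∈ Finset.univ.erase m0, f m :=
      (Finset.add_sum_erase _ _ (Finset.mem_univ _)).symm
    rw [h1, Finset.sum_congr rfl (fun m hm => hf m (Finset.ne_of_mem_erase hm)),
      Finset.sum_const, Finset.card_erase_of_mem (Finset.mem_univ _)]
    rfl
  have hm1 : m0 + 1 ≠ m0 := by
    intro h
    have h2 : ∀ m : Fin 3, m + 1 ≠ m := by decide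
    exact h2 m0 h
  have hno : ∀ (e : ℕ) (g : MvPolynomial (Fin 3) Ω), g.IsHomogeneous e → g ≠ 0 → 2 ≤ e → e ≤ 3 →
      ¬ ∀ m, g ∣ ssub P (D.F m) := by
    intro e g hg hg0 he2 he3
    refine H2.nocurve D hPli (by omega) hg hg0 ?_
    rw [hsum (fun m => (d m + 2).choose 2 - (d m + 2 - e).choose 2) (fun m hm => by
      rw [hd2 m hm, hd2 _ hm1]), hd0, hd2 _ hm1]
    rcases (by omega : e = 2 ∨ e = 3) with rfl | rfl <;> decide
  -- the quadrics vanish on the plane
  have hq : ∀ m, m ≠ m0 → ssub P (D.F m) = 0 := by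
    intro m hm
    by_contra hne
    obtain ⟨e, g, hg, -, he2, hg0, -, hdiv⟩ := clos hS.kalg (fun i => x (t i)) yk (hfh m)
      (hfk m) hne (hf0 m)
    obtain ⟨q, -, -, -, hle⟩ := hdiv _ _ (hfh m) (hfk m) (hf0 m)
    have h1 := hle hne
    rw [hd2 m hm] at h1
    refine hno e g hg hg0 he2 (by omega) fun m' => ?_
    obtain ⟨q, -, -, hq, -⟩ := hdiv _ _ (hfh m') (hfk m') (hf0 m')
    exact ⟨q, hq⟩
  -- the quartic does not vanish on the plane
  have hf3 : ssub P (D.F m0) ≠ 0 := by
    intro h0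
    refine hno 2 (X 0 ^ 2) (by simpa using (isHomogeneous_X Ω (0 : Fin 3)).pow 2)
      (pow_ne_zero _ (X_ne_zero _)) le_rfl (by norm_num) fun m => ?_
    by_cases hm : m = m0
    · rw [hm, h0]
      exact dvd_zero _
    · rw [hq m hm]
      exact dvd_zero _
  refine core hS hd0 t0 xP Pk yk (fun I hI i f => rigid D hd2 Pt (fun m hm z => ?_)
    (by rw [hI, hd0]) i f) ?_
  · rw [← eval_ssub, hq m hm, map_zero]
  · -- the point is a smooth point of the quartic curve
    by_contra hcon
    push Not at hcon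
    obtain ⟨e, g, hg, -, he2, hg0, -, hdiv⟩ := clos hS.kalg (fun i => x (t i)) yk (hfh m0)
      (hfk m0) hf3 (hf0 m0)
    obtain ⟨q, -, -, hgq, hle⟩ := hdiv _ _ (hfh m0) (hfk m0) (hf0 m0)
    have h1 := hle hf3
    rw [hd0] at h1
    have hge : ∀ m, g ∣ ssub P (D.F m) := by
      intro m
      by_cases hm : m = m0
      · rw [hm]
        exact ⟨q, hgq⟩
      · rw [hq m hm]
        exact dvd_zero _
    have he4 : e = 4 := by
      by_contra hne
      exact hno e g hg hg0 he2 (by omega) hge
    subst he4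
    -- all the derivatives are divisible by `g`
    have hpd : ∀ i, pderiv i (ssub P (D.F m0)) = 0 := by
      intro i
      have hh : (pderiv i (ssub P (D.F m0))).IsHomogeneous 3 := by
        have := (hfh m0).pderiv (i := i)
        rwa [hd0] at this
      have hev : eval (fun i => x (t i)) (pderiv i (ssub P (D.F m0))) = 0 := by
        rw [pderiv_ssub, map_sum]
        have h2 := hcon i
        rw [← h2]
        refine Finset.sum_congr rfl fun p _ => ?_
        rw [map_mul, eval_C, eval_ssub, ← hxs, mul_comm]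
      have hk : ∀ I, coeff I (pderiv i (ssub P (D.F m0))) ∈ k := by
        intro I
        rw [coeff_pderiv]
        refine k.mul_mem (hfk m0 _) (k.add_mem ?_ k.one_mem)
        exact natCast_mem k _
      obtain ⟨q', -, -, -, hle'⟩ := hdiv _ _ hh hk hev
      by_contra hne
      exact absurd (hle' hne) (by norm_num)
    have h3 := (hfh m0).sum_X_mul_pderiv
    rw [Finset.sum_eq_zero fun i _ => by rw [hpd i, mul_zero], hd0] at h3
    apply hf3
    have h4 : ((4 : ℕ) : MvPolynomial (Fin 3) Ω) * ssub P (D.F m0) = 0 := by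
      rw [← nsmul_eq_mul]
      exact h3.symm
    refine (mul_eq_zero.1 h4).resolve_left ?_
    exact_mod_cast (by norm_num : (4 : ℕ) ≠ 0)


/-- the form for the assembly of `NoplStatement` -/
theorem nopl_of_four {Ω : Type} [Field Ω] [CharZero Ω] {k : Subfield Ω} {Γ : Type}
    [LinearOrderedCommGroupWithZero Γ] {S : Sizes Ω k Γ} {n c : ℕ} {d : Fin c → ℕ}
    {D : DSys Ω n c d} {x : Fin (n + 1) → Ω} {j0 : Fin (n + 1)} (hn : n = c + 3)
    (hs : ∑ m, d m = n + 2) (h2 : ∀ m, 2 ≤ d m) (hc : c = 3) {m0 : Fin c} (hd : d m0 = 4)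
    (hS : Sit S D x j0) {t : Fin (2 + 1) → Fin (n + 1)} {P : Fin (2 + 1) → Fin (n + 1) → Ω}
    (hull : Hull k x j0 t P) : False := by
  subst hc
  subst hn
  refine nopl224 hS hd (fun m hm => ?_) hull.t0 hull.Pt hull.xP hull.Pk hull.yk
  have h1 : ∑ m, d m = d m0 + ∑ m ∈ Finset.univ.erase m0, d m :=
    (Finset.add_sum_erase _ _ (Finset.mem_univ _)).symm
  have h3 : ∑ m ∈ Finset.univ.erase m0, d m = d m + ∑ m' ∈ (Finset.univ.erase m0).erase m, d m' :=
    (Finset.add_sum_erase _ _ (Finset.mem_erase.2 ⟨hm, Finset.mem_univ _⟩)).symm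
  have h4 : 2 ≤ ∑ m' ∈ (Finset.univ.erase m0).erase m, d m' := by
    have h5 : ((Finset.univ.erase m0).erase m).card = 1 := by
      rw [Finset.card_erase_of_mem (Finset.mem_erase.2 ⟨hm, Finset.mem_univ _⟩),
        Finset.card_erase_of_mem (Finset.mem_univ _), Finset.card_univ, Fintype.card_fin]
    obtain ⟨a, ha⟩ := Finset.card_eq_one.1 h5
    rw [ha, Finset.sum_singleton]
    exact h2 a
  have h6 := h2 m
  omega

end Pool.Agent.T2C.H12
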